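import Pool.Agent.Helper2.AV.ADefs

/-!
Algebras of operators: primitive central idempotents, irreducible submodules, equivariant
projections.
-/

open Module

namespace AV

open MTP UN

variable {K : Type*} [Field K] {V : Type*} [AddCommGroup V] [Module K V] [FiniteDimensional K V]
variable {A : Subalgebra K (Module.End K V)} {ε ε' : Module.End K V} {W W' : Submodule K V}

theorem Bl.orth (h : Bl A ε) (h' : Bl A ε') (hne : ε ≠ ε') : ε * ε' = 0 := by
  rcases h'.min ε h.mem h.cen h.idem with h1 | h1
  · exact h1
  rcases h.min ε' h'.mem h'.cen h'.idem with h2 | h2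
  · rw [h.cen ε' h'.mem, h2]
  · exact absurd (by rw [← h1, h.cen ε' h'.mem, h2]) hne

namespace DAa

/-- Orthogonal nonzero idempotents are linearly independent. -/
lemma linInd (s : Set (Module.End K V)) (h0 : ∀ e ∈ s, e ≠ 0) (hi : ∀ e ∈ s, e * e = e)
    (ho : ∀ e ∈ s, ∀ f ∈ s, e ≠ f → e * f = 0) :
    LinearIndependent K (fun e : s => (e : Module.End K V)) := by
  classical
  rw [linearIndependent_iff']
  intro t g hg i hit
  have h1 : (∑ j ∈ t, g j • (j : Module.End K V)) * (i : Module.End K V) = 0 := by
    rw [hg, zero_mul]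
  rw [Finset.sum_mul, Finset.sum_eq_single i] at h1
  · rw [smul_mul_assoc, hi i i.2] at h1
    exact (smul_eq_zero.mp h1).resolve_right (h0 i i.2)
  · intro j _ hji
    rw [smul_mul_assoc, ho j j.2 i i.2 (fun h => hji (Subtype.ext h)), smul_zero]
  · intro h; exact absurd hit h

lemma finite_bl (A : Subalgebra K (Module.End K V)) : {ε | Bl A ε}.Finite := by
  have h := linInd (K := K) (V := V) {ε | Bl A ε} (fun e he => he.ne) (fun e he => he.idem)
    (fun e he f hf hne => Bl.orth he hf hne)
  exact h.setFinite

end DAa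

theorem mem_bls : ε ∈ bls A ↔ Bl A ε := by
  classical
  unfold bls
  rw [dif_pos (DAa.finite_bl A)]
  simp

namespace DAa

/-- Every central idempotent is the sum of the blocks below it. -/
lemma sum_below (A : Subalgebra K (Module.End K V)) : ∀ (n : ℕ) (e : Module.End K V),
    Module.finrank K (LinearMap.range e) ≤ n →
    e ∈ A → (∀ a ∈ A, e * a = a * e) → e * e = e → e * ∑ ε ∈ bls A, ε = e := by
  intro n
  induction n with
  | zero =>
    intro e hn _ _ _
    have h0 : LinearMap.range e = ⊥ := Submodule.finrank_eq_zero.mp (Nat.le_zero.mp hn)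
    have : e = 0 := LinearMap.range_eq_bot.mp h0
    rw [this, zero_mul]
  | succ n ih =>
    intro e hn hA hc hi
    by_cases he0 : e = 0
    · rw [he0, zero_mul]
    by_cases hp : Bl A e
    · rw [Finset.mul_sum, Finset.sum_eq_single e]
      · exact hi
      · intro f hf hfe
        exact hp.orth (mem_bls.mp hf) (Ne.symm hfe)
      · intro h; exact absurd (mem_bls.mpr hp) h
    · have : ∃ f ∈ A, (∀ a ∈ A, f * a = a * f) ∧ f * f = f ∧ f * e ≠ 0 ∧ f * e ≠ e := by
        by_contra hcon
        apply hp
        refine ⟨hA, hc, hi, he0, ?_⟩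
        intro f hf hfc hfi
        by_contra h
        push Not at h
        exact hcon ⟨f, hf, hfc, hfi, h.1, h.2⟩
      obtain ⟨f, hfA, hfc, hfi, hf0, hf1⟩ := this
      have hfe : f * e = e * f := hfc e hA
      -- the two pieces
      have hi1 : (f * e) * (f * e) = f * e := by
        rw [mul_assoc, ← mul_assoc e f e, ← hfe, mul_assoc f e e, hi, ← mul_assoc, hfi]
      have hc1 : ∀ a ∈ A, (f * e) * a = a * (f * e) := by
        intro a ha
        rw [mul_assoc, hc a ha, ← mul_assoc, hfc a ha, mul_assoc]
      have hA1 : f * e ∈ A := A.mul_mem hfA hA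
      have hA2 : e - f * e ∈ A := A.sub_mem hA hA1
      have hc2 : ∀ a ∈ A, (e - f * e) * a = a * (e - f * e) := by
        intro a ha
        rw [sub_mul, mul_sub, hc a ha, hc1 a ha]
      have he1 : e * (f * e) = f * e := by
        rw [← mul_assoc, ← hfe, mul_assoc, hi]
      have he2 : (f * e) * e = f * e := by rw [mul_assoc, hi]
      have hi2 : (e - f * e) * (e - f * e) = e - f * e := by
        rw [sub_mul, mul_sub, mul_sub, hi, hi1, he1, he2]; abel
      have h12 : (f * e) * (e - f * e) = 0 := by
        rw [mul_sub, he2, hi1, sub_self]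
      have h21 : (e - f * e) * (f * e) = 0 := by
        rw [sub_mul, he1, hi1, sub_self]
      have hlt1 : LinearMap.range (f * e) < LinearMap.range e := by
        refine lt_of_le_of_ne ?_ ?_
        · rintro _ ⟨v, rfl⟩
          exact ⟨(f * e) v, LinearMap.congr_fun he1 v⟩
        · intro h
          apply hf1
          ext v
          have : e v ∈ LinearMap.range (f * e) := by rw [h]; exact ⟨v, rfl⟩
          obtain ⟨w, hw⟩ := this
          have h3 : (f * e) (e v) = e v := by
            rw [← hw]; exact LinearMap.congr_fun hi1 w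
          have h4 : (f * e) (e v) = (f * e) v := LinearMap.congr_fun he2 v
          rw [← h4, h3]
      have hlt2 : LinearMap.range (e - f * e) < LinearMap.range e := by
        refine lt_of_le_of_ne ?_ ?_
        · rintro _ ⟨v, rfl⟩
          refine ⟨(e - f * e) v, ?_⟩
          have : e * (e - f * e) = e - f * e := by rw [mul_sub, hi, he1]
          exact LinearMap.congr_fun this v
        · intro h
          apply hf0
          ext v
          have : (f * e) v ∈ LinearMap.range (e - f * e) := by
            rw [h]; exact ⟨(f * e) v, LinearMap.congr_fun he1 v⟩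
          obtain ⟨w, hw⟩ := this
          have h3 : (f * e) ((f * e) v) = 0 := by
            rw [← hw]; exact LinearMap.congr_fun h12 w
          have h4 : (f * e) ((f * e) v) = (f * e) v := LinearMap.congr_fun hi1 v
          rw [← h4, h3]; rfl
      have hr1 := Submodule.finrank_lt_finrank_of_lt hlt1
      have hr2 := Submodule.finrank_lt_finrank_of_lt hlt2
      have e1 := ih (f * e) (by omega) hA1 hc1 hi1
      have e2 := ih (e - f * e) (by omega) hA2 hc2 hi2
      calc e * ∑ ε ∈ bls A, ε = (f * e) * ∑ ε ∈ bls A, ε + (e - f * e) * ∑ ε ∈ bls A, ε := by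
            rw [← add_mul]; congr 1; abel
        _ = f * e + (e - f * e) := by rw [e1, e2]
        _ = e := by abel

end DAa

theorem sum_bls (A : Subalgebra K (Module.End K V)) : ∑ ε ∈ bls A, ε = 1 := by
  have h := DAa.sum_below A _ 1 le_rfl A.one_mem (fun a _ => by rw [one_mul, mul_one])
    (one_mul 1)
  rwa [one_mul] at h

theorem Irr.exists_bl (hW : Irr (A : Set (Module.End K V)) W) : ∃ ε, Bl A ε ∧ InB ε W := by
  classical
  -- for a block, either it kills `W` or is the identity on `W`
  have key : ∀ ε, Bl A ε → (∀ w ∈ W, ε w = 0) ∨ InB ε W := by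
    intro ε hε
    have hst : Stab (A : Set (Module.End K V)) (W ⊓ LinearMap.ker ε) := by
      intro a ha v hv
      refine ⟨hW.st a ha v hv.1, ?_⟩
      have : (ε * a) v = (a * ε) v := LinearMap.congr_fun (hε.cen a ha) v
      change ε (a v) = 0
      change ε (a v) = a (ε v) at this
      rw [this, show ε v = 0 from hv.2, map_zero]
    rcases hW.irr _ inf_le_left hst with h | h
    · right
      intro w hw
      have h1 : ε w - w ∈ W ⊓ LinearMap.ker ε := by
        refine ⟨W.sub_mem (hW.st ε hε.mem w hw) hw, ?_⟩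
        change ε (ε w - w) = 0
        have : ε (ε w) = ε w := LinearMap.congr_fun hε.idem w
        rw [map_sub, this, sub_self]
      rw [h] at h1
      exact sub_eq_zero.mp ((Submodule.mem_bot K).mp h1)
    · left
      intro w hw
      rw [← h] at hw
      exact hw.2
  by_contra hcon
  push Not at hcon
  apply hW.ne
  rw [eq_bot_iff]
  intro w hw
  have h1 : w = ∑ ε ∈ bls A, ε w := by
    have := LinearMap.congr_fun (sum_bls A) w
    rw [LinearMap.sum_apply] at this
    exact this.symm
  rw [h1]
  rw [Submodule.mem_bot]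
  apply Finset.sum_eq_zero
  intro ε hε
  rcases key ε (mem_bls.mp hε) with h | h
  · exact h w hw
  · exact absurd h (hcon ε (mem_bls.mp hε))

theorem Irr.bl_unique (hW : Irr (A : Set (Module.End K V)) W) (h : Bl A ε) (h' : Bl A ε')
    (hε : InB ε W) (hε' : InB ε' W) : ε = ε' := by
  by_contra hne
  apply hW.ne
  rw [eq_bot_iff]
  intro w hw
  have h1 : ε (ε' w) = 0 := LinearMap.congr_fun (h.orth h' hne) w
  rw [hε' w hw, hε w hw] at h1
  exact (Submodule.mem_bot K).mpr h1

namespace DAa

/-- Every nonzero stable subspace contains an irreducible one. -/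
lemma exists_irr_le (S : Set (Module.End K V)) : ∀ (n : ℕ) (U : Submodule K V),
    Module.finrank K U ≤ n → Stab S U → U ≠ ⊥ → ∃ W ≤ U, Irr S W := by
  intro n
  induction n with
  | zero =>
    intro U hn _ hU
    exact absurd (Submodule.finrank_eq_zero.mp (Nat.le_zero.mp hn)) hU
  | succ n ih =>
    intro U hn hst hU
    by_cases hi : Irr S U
    · exact ⟨U, le_rfl, hi⟩
    · have : ∃ U' ≤ U, Stab S U' ∧ U' ≠ ⊥ ∧ U' ≠ U := by
        by_contra hcon
        apply hi
        refine ⟨hU, hst, ?_⟩
        intro U' hle hs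
        by_contra h
        push Not at h
        exact hcon ⟨U', hle, hs, h.1, h.2⟩
      obtain ⟨U', hle, hs, h0, h1⟩ := this
      have hlt : U' < U := lt_of_le_of_ne hle h1
      have hr := Submodule.finrank_lt_finrank_of_lt hlt
      obtain ⟨W, hWU, hW⟩ := ih U' (by omega) hs h0
      exact ⟨W, hWU.trans hle, hW⟩

end DAa

theorem Bl.exists_irr (h : Bl A ε) : ∃ W, Irr (A : Set (Module.End K V)) W ∧ InB ε W := by
  have hst : Stab (A : Set (Module.End K V)) (LinearMap.range ε) := by
    rintro a ha _ ⟨v, rfl⟩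
    refine ⟨a v, ?_⟩
    exact LinearMap.congr_fun (h.cen a ha) v
  have hne : LinearMap.range ε ≠ ⊥ := fun h0 => h.ne (LinearMap.range_eq_bot.mp h0)
  obtain ⟨W, hle, hW⟩ := DAa.exists_irr_le (A : Set (Module.End K V)) _ _ le_rfl hst hne
  refine ⟨W, hW, ?_⟩
  intro w hw
  obtain ⟨v, rfl⟩ := hle hw
  exact LinearMap.congr_fun h.idem v

/-- An equivariant projection. -/
theorem SS.exists_prj (h : SS (A : Set (Module.End K V))) (hW : Stab (A : Set (Module.End K V)) W) :
    ∃ P : Module.End K V, (∀ a ∈ A, P * a = a * P) ∧ (∀ w ∈ W, P w = w) ∧ ∀ v, P v ∈ W := by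
  obtain ⟨U, hU, hc⟩ := h W hW
  have hdec : ∀ v : V, ∃ w ∈ W, ∃ u ∈ U, w + u = v := by
    intro v
    have : v ∈ W ⊔ U := by rw [hc.sup_eq_top]; exact Submodule.mem_top
    exact Submodule.mem_sup.mp this
  let P : Module.End K V := W.subtype ∘ₗ W.projectionOnto U hc
  have hP1 : ∀ w ∈ W, P w = w := by
    intro w hw
    change ((W.projectionOnto U hc w : W) : V) = w
    rw [Submodule.projectionOnto_apply_left hc ⟨w, hw⟩]
  have hP2 : ∀ u ∈ U, P u = 0 := by
    intro u hu
    change ((W.projectionOnto U hc u : W) : V) = 0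
    rw [Submodule.projectionOnto_apply_right hc ⟨u, hu⟩]
    rfl
  refine ⟨P, ?_, hP1, fun v => (W.projectionOnto U hc v).2⟩
  intro a ha
  ext v
  obtain ⟨w, hw, u, hu, rfl⟩ := hdec v
  change P (a (w + u)) = a (P (w + u))
  rw [map_add, map_add, map_add, hP1 _ (hW a ha w hw), hP2 _ (hU a ha u hu), hP1 w hw, hP2 u hu,
    add_zero, add_zero]

theorem SS.eq_zero_of_irr (h : SS (A : Set (Module.End K V))) {F : Module.End K V}
    (hF : ∀ W, Irr (A : Set (Module.End K V)) W → ∀ w ∈ W, F w = 0) : F = 0 := by
  -- the sum of all the irreducible subspaces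
  let M : Submodule K V := sSup {W | Irr (A : Set (Module.End K V)) W}
  have hM : Stab (A : Set (Module.End K V)) M := by
    intro a ha v hv
    have : M ≤ M.comap a := by
      apply sSup_le
      intro W hW w hw
      exact (le_sSup (show W ∈ {W | Irr (A : Set (Module.End K V)) W} from hW)) (hW.st a ha w hw)
    exact this hv
  obtain ⟨U, hU, hc⟩ := h M hM
  have hU0 : U = ⊥ := by
    by_contra hne
    obtain ⟨W, hWU, hW⟩ := DAa.exists_irr_le (A : Set (Module.End K V)) _ _ le_rfl hU hne
    have h1 : W ≤ M := le_sSup hW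
    have h2 : W ≤ M ⊓ U := le_inf h1 hWU
    rw [hc.inf_eq_bot] at h2
    exact hW.ne (le_bot_iff.mp h2)
  have hMt : M = ⊤ := by
    have := hc.sup_eq_top
    rwa [hU0, sup_bot_eq] at this
  have hker : M ≤ LinearMap.ker F := by
    apply sSup_le
    intro W hW w hw
    exact hF W hW w hw
  rw [hMt] at hker
  exact LinearMap.ker_eq_top.mp (top_le_iff.mp hker)

end AV
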